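import Pool.Agent.N785.PC.Final

/-!
# The number of rows of the prime pyramid

`R n` is the number of sequences `a 1, ..., a n` which contain each of the integers `1, ..., n` exactly once, with
`a 1 = 1`, `a n = n` and prime sums of adjacent entries. We show that
`log R(n) = n (log n - log log n - 1) + O(n / log n)`, in particular `R(n) ^ (1 / n) ~ n / (e log n)`, and
`R(n) ≥ 1` for all large `n`.

See `Pool.Agent.Results.MP_ec65ab_co.AsymptoticNumber` for an outline of the proof.
-/

set_option autoImplicit false

open Finset Filter Topology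
open Pool.Agent.N785.PC (f_PYRL2 f_PYRU2 mt)

namespace Pool.Agent.Results.MP_713a1e_co.AsymptoticNumber

/-- The prime pyramid rows of length `n`, written as lists: each of the integers `1, ..., n` occurs exactly
once, the first entry is `1`, the last one is `n`, and adjacent entries have a prime sum. -/
def rows (n : ℕ) : Set (List ℕ) :=
  {l | l.Nodup ∧ (∀ x, x ∈ l ↔ 1 ≤ x ∧ x ≤ n) ∧ l.head? = some 1 ∧ l.getLast? = some n ∧
    l.IsChain (fun x y => (x + y).Prime)}

/-- The number of prime pyramid rows of length `n`. -/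
noncomputable def R (n : ℕ) : ℕ := (rows n).ncard

/-- **The number of rows of the prime pyramid.** There is a constant `C` such that for all large `n` there
are rows of length `n`, and `|log R(n) - n (log n - log log n - 1)| ≤ C n / log n`. -/
theorem result : ∃ C : ℝ, 0 < C ∧ ∃ n₀ : ℕ, ∀ n : ℕ, n₀ ≤ n →
    1 ≤ R n ∧
    |Real.log (R n) - n * (Real.log n - Real.log (Real.log n) - 1)| ≤ C * n / Real.log n := by
  obtain ⟨C1, hC1, m1, h1⟩ := f_PYRL2
  obtain ⟨C2, hC2, m2, h2⟩ := f_PYRU2
  refine ⟨max C1 C2, lt_of_lt_of_le hC1 (le_max_left _ _), max (max m1 m2) 20, fun n hn => ?_⟩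
  have hm1 : m1 ≤ n := le_trans (le_trans (le_max_left _ _) (le_max_left _ _)) hn
  have hm2 : m2 ≤ n := le_trans (le_trans (le_max_right _ _) (le_max_left _ _)) hn
  have hm3 : 20 ≤ n := le_trans (le_max_right _ _) hn
  have hlog : 0 < Real.log n := Real.log_pos (by exact_mod_cast (by omega : 1 < n))
  have hq : 0 ≤ (n : ℝ) / Real.log n := by positivity
  have hX1 : C1 * n / Real.log n ≤ max C1 C2 * n / Real.log n := by
    rw [mul_div_assoc, mul_div_assoc]
    exact mul_le_mul_of_nonneg_right (le_max_left _ _) hq
  have hX2 : C2 * n / Real.log n ≤ max C1 C2 * n / Real.log n := by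
    rw [mul_div_assoc, mul_div_assoc]
    exact mul_le_mul_of_nonneg_right (le_max_right _ _) hq
  have hRR : (R n : ℝ) = (Pool.Agent.N785.PC.R n : ℝ) := rfl
  have hmt : mt n = n * (Real.log n - Real.log (Real.log n) - 1) := rfl
  have g1 := h1 n hm1
  have g2 := h2 n hm2
  rw [← hRR, hmt] at g1 g2
  have hR : 0 < (R n : ℝ) := lt_of_lt_of_le (Real.exp_pos _) g1
  refine ⟨by exact_mod_cast hR, ?_⟩
  rw [abs_le]
  have e1 := Real.log_le_log (Real.exp_pos _) g1
  have e2 := Real.log_le_log hR g2
  rw [Real.log_exp] at e1 e2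
  constructor <;> linarith

end Pool.Agent.Results.MP_713a1e_co.AsymptoticNumber
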